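import Pool.Agent.Work.MP_054302_co.W.Upper

/-! A graph with `7 p ^ 2` vertices and minimum degree `4 p - 1` without `K_{3,3}` minus an edge,
for primes `p ≡ 19 mod 24`. -/

namespace Pool.Agent.Work.MP_054302_co.W

open Finset SimpleGraph

/-- the parameters of the seven types -/
def al : Fin 7 → ℤ := ![2, -3, 4, 5, 1, -2, -1]

/-- adjacent types: the sum lies in a `(7, 4, 2)` difference set -/
def ty (i j : Fin 7) : Prop := i + j = 0 ∨ i + j = 1 ∨ i + j = 2 ∨ i + j = 4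

instance (i j : Fin 7) : Decidable (ty i j) := by unfold ty; infer_instance

theorem ty_symm : ∀ i j, ty i j → ty j i := by decide

theorem ty_ne : ∀ i j, ty i j → al i + al j ≠ 0 ∧ |al i + al j| < 30 := by decide

theorem al_ne : ∀ i j, i ≠ j → al j - al i ≠ 0 ∧ |al j - al i| < 30 := by decide

theorem ty_two : ∀ i i' j1 j2 j3, i ≠ i' → ty i j1 → ty i' j1 → ty i j2 → ty i' j2 → ty i j3 →
    ty i' j3 → j1 = j2 ∨ j1 = j3 ∨ j2 = j3 := by decide +kernel

theorem ty_sq : ∀ i i' j l, i ≠ i' → j ≠ l → ty i j → ty i' j → ty i l → ty i' l →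
    ∃ k ∈ ({-1, 2, 3, -6} : Finset ℤ), ∃ m ∈ ({2, 6, 8, 12, 24} : Finset ℤ),
      (al i + al j) * (al i' + al j) * ((al i + al l) * (al i' + al l)) = k * m ^ 2 := by
  decide +kernel

theorem ty_card : ∀ i, (univ.filter fun j => ty i j).card = 4 := by decide

variable {p : ℕ} [Fact p.Prime]

theorem cast_ne (hp : 30 ≤ p) {z : ℤ} (h : z ≠ 0 ∧ |z| < 30) : (z : ZMod p) ≠ 0 := by
  rw [Ne, ZMod.intCast_zmod_eq_zero_iff_dvd]
  intro c
  have := Int.le_of_dvd (abs_pos.2 h.1) ((dvd_abs _ _).2 c)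
  omega

theorem nonsq (hp : p % 24 = 19) {k : ℤ} (hk : k ∈ ({-1, 2, 3, -6} : Finset ℤ)) :
    ¬ IsSquare (k : ZMod p) := by
  apply ZMod.nonsquare_of_jacobiSym_eq_neg_one
  rw [jacobiSym.mod_right k (show Odd p from Nat.odd_iff.2 (by omega))]
  simp only [mem_insert, mem_singleton] at hk
  rcases hk with rfl | rfl | rfl | rfl
  · rw [show p % (4 * (-1 : ℤ).natAbs) = 3 by norm_num; omega]; norm_num
  · rw [show p % (4 * (2 : ℤ).natAbs) = 3 by norm_num; omega]; norm_num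
  · rw [show p % (4 * (3 : ℤ).natAbs) = 7 by norm_num; omega]; norm_num
  · rw [show p % (4 * (-6 : ℤ).natAbs) = 19 by norm_num; omega]; norm_num

/-- the defining relation -/
def rel (x y : Fin 7 × ZMod p × ZMod p) : Prop :=
  ty x.1 y.1 ∧ ((al x.1 + al y.1 : ℤ) : ZMod p) * (x.2.2 + y.2.2) = (x.2.1 + y.2.1) ^ 2

theorem rel_symm {x y : Fin 7 × ZMod p × ZMod p} (h : rel x y) : rel y x :=
  ⟨ty_symm _ _ h.1, by rw [add_comm (al y.1), add_comm y.2.2, add_comm y.2.1]; exact h.2⟩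

/-- the host graph -/
def host (p : ℕ) [Fact p.Prime] : SimpleGraph (Fin 7 × ZMod p × ZMod p) where
  Adj x y := x ≠ y ∧ rel x y
  symm := ⟨fun _ _ h => ⟨h.1.symm, rel_symm h.2⟩⟩
  loopless := ⟨fun _ h => h.1 rfl⟩

theorem rel_ext (hp : 30 ≤ p) {x y y' : Fin 7 × ZMod p × ZMod p} (h : rel x y) (h' : rel x y')
    (e1 : y.1 = y'.1) (e2 : y.2.1 = y'.2.1) : y = y' := by
  refine Prod.ext e1 (Prod.ext e2 ?_)
  have h1 := h.2
  have h2 := h'.2
  rw [← e1, ← e2, ← h1] at h2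
  exact add_left_cancel (mul_left_cancel₀ (cast_ne hp (ty_ne _ _ h.1)) h2).symm

theorem same_type (hp : 30 ≤ p) {x x' y y' : Fin 7 × ZMod p × ZMod p} (hx : x.1 = x'.1)
    (hy : y.1 = y'.1) (h1 : rel x y) (h2 : rel x' y) (h3 : rel x y') (h4 : rel x' y') :
    x = x' ∨ y = y' := by
  by_cases e : x.2.1 = x'.2.1
  · exact Or.inl (rel_ext hp (rel_symm h1) (rel_symm h2) hx e)
  refine Or.inr (rel_ext hp h1 h3 hy ?_)
  have k1 := h1.2
  have k2 := h2.2
  have k3 := h3.2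
  have k4 := h4.2
  rw [← hx] at k2 k4
  rw [← hy] at k3 k4
  have h20 : ((2 : ℤ) : ZMod p) ≠ 0 := cast_ne hp (by norm_num)
  have : ((2 : ℤ) : ZMod p) * (x.2.1 - x'.2.1) * (y.2.1 - y'.2.1) = 0 := by
    push_cast
    linear_combination -k1 + k2 + k3 - k4
  rcases mul_eq_zero.1 this with c | c
  · exact absurd c (mul_ne_zero h20 (sub_ne_zero.2 e))
  · exact sub_eq_zero.1 c

theorem key_id {x x' y : Fin 7 × ZMod p × ZMod p} (h1 : rel x y) (h2 : rel x' y) :
    (((al x'.1 - al x.1 : ℤ) : ZMod p) * (x.2.1 + y.2.1) -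
      ((al x.1 + al y.1 : ℤ) : ZMod p) * (x'.2.1 - x.2.1)) ^ 2 =
      (((al x.1 + al y.1) * (al x'.1 + al y.1) : ℤ) : ZMod p) *
        ((x'.2.1 - x.2.1) ^ 2 - ((al x'.1 - al x.1 : ℤ) : ZMod p) * (x'.2.2 - x.2.2)) := by
  have k1 := h1.2
  have k2 := h2.2
  push_cast at k1 k2 ⊢
  linear_combination (-((al x'.1 : ZMod p) - al x.1) * ((al x'.1 : ZMod p) + al y.1)) * k1 +
    (((al x'.1 : ZMod p) - al x.1) * ((al x.1 : ZMod p) + al y.1)) * k2

theorem cross_type (hp : 30 ≤ p) (hq : p % 24 = 19) {x x' y1 y2 y3 : Fin 7 × ZMod p × ZMod p}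
    (hx : x.1 ≠ x'.1) (h1 : rel x y1) (h1' : rel x' y1) (h2 : rel x y2) (h2' : rel x' y2)
    (h3 : rel x y3) (h3' : rel x' y3) : y1 = y2 ∨ y1 = y3 ∨ y2 = y3 := by
  have hδ := cast_ne hp (al_ne _ _ hx)
  have ext : ∀ y y', rel x y → rel x y' → y.1 = y'.1 →
      ((al x'.1 - al x.1 : ℤ) : ZMod p) * (x.2.1 + y.2.1) -
        ((al x.1 + al y.1 : ℤ) : ZMod p) * (x'.2.1 - x.2.1) =
      ((al x'.1 - al x.1 : ℤ) : ZMod p) * (x.2.1 + y'.2.1) -
        ((al x.1 + al y'.1 : ℤ) : ZMod p) * (x'.2.1 - x.2.1) → y = y' := by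
    intro y y' a a' e c
    rw [← e, sub_left_inj] at c
    exact rel_ext hp a a' e (add_left_cancel (mul_left_cancel₀ hδ c))
  have k1 := key_id h1 h1'
  have k2 := key_id h2 h2'
  have k3 := key_id h3 h3'
  by_cases hD : (x'.2.1 - x.2.1) ^ 2 - ((al x'.1 - al x.1 : ℤ) : ZMod p) * (x'.2.2 - x.2.2) = 0
  · rw [hD, mul_zero, sq_eq_zero_iff] at k1 k2 k3
    rcases ty_two _ _ _ _ _ hx h1.1 h1'.1 h2.1 h2'.1 h3.1 h3'.1 with e | e | e
    · exact Or.inl (ext _ _ h1 h2 e (k1.trans k2.symm))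
    · exact Or.inr (Or.inl (ext _ _ h1 h3 e (k1.trans k3.symm)))
    · exact Or.inr (Or.inr (ext _ _ h2 h3 e (k2.trans k3.symm)))
  have ty1 : ∀ y y', rel x y → rel x' y → rel x y' → rel x' y' → y.1 = y'.1 := by
    intro y y' a b a' b'
    by_contra e
    obtain ⟨k, hk, m, hm, c⟩ := ty_sq _ _ _ _ hx e a.1 b.1 a'.1 b'.1
    have hm0 : (m : ZMod p) ≠ 0 := cast_ne hp (by
      simp only [mem_insert, mem_singleton] at hm
      rcases hm with rfl | rfl | rfl | rfl | rfl <;> norm_num)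
    have c' := congrArg (Int.cast : ℤ → ZMod p) c
    have j1 := key_id a b
    have j2 := key_id a' b'
    rw [Int.cast_mul, Int.cast_mul k, Int.cast_pow] at c'
    generalize (((al x.1 + al y.1) * (al x'.1 + al y.1) : ℤ) : ZMod p) = U at c' j1
    generalize (((al x.1 + al y'.1) * (al x'.1 + al y'.1) : ℤ) : ZMod p) = U' at c' j2
    generalize (x'.2.1 - x.2.1) ^ 2 - ((al x'.1 - al x.1 : ℤ) : ZMod p) * (x'.2.2 - x.2.2) = D
      at hD j1 j2
    generalize ((al x'.1 - al x.1 : ℤ) : ZMod p) * (x.2.1 + y.2.1) -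
      ((al x.1 + al y.1 : ℤ) : ZMod p) * (x'.2.1 - x.2.1) = s at j1
    generalize ((al x'.1 - al x.1 : ℤ) : ZMod p) * (x.2.1 + y'.2.1) -
      ((al x.1 + al y'.1 : ℤ) : ZMod p) * (x'.2.1 - x.2.1) = s' at j2
    refine nonsq hq hk ⟨s * s' / (m * D), ?_⟩
    field_simp
    linear_combination (-D ^ 2) * c' - s' ^ 2 * j1 - U * D * j2
  have e2 := ty1 _ _ h1 h1' h2 h2'
  have e3 := ty1 _ _ h1 h1' h3 h3'
  have q2 := k1.trans (by rw [e2] : _ = _) |>.trans k2.symm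
  have q3 := k1.trans (by rw [e3] : _ = _) |>.trans k3.symm
  rcases sq_eq_sq_iff_eq_or_eq_neg.1 q2 with c2 | c2
  · exact Or.inl (ext _ _ h1 h2 e2 c2)
  rcases sq_eq_sq_iff_eq_or_eq_neg.1 q3 with c3 | c3
  · exact Or.inr (Or.inl (ext _ _ h1 h3 e3 c3))
  · exact Or.inr (Or.inr (ext _ _ h2 h3 (e2.symm.trans e3) (neg_inj.1 (c2.symm.trans c3))))

theorem host_free (hp : 30 ≤ p) (hq : p % 24 = 19) : ¬ HasK (host p) := by
  rintro ⟨a0, a1, a2, b0, b1, b2, n1, n2, n3, n4, n5, n6, -, e01, e02, e10, e11, e12, e20, e21, e22⟩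
  have ha : a1.1 = a2.1 := by
    by_contra c
    rcases cross_type hp hq c e10.2 e20.2 e11.2 e21.2 e12.2 e22.2 with e | e | e
    exacts [n4 e, n5 e, n6 e]
  have hb : b1.1 = b2.1 := by
    by_contra c
    rcases cross_type hp hq c e01.symm.2 e02.symm.2 e11.symm.2 e12.symm.2 e21.symm.2 e22.symm.2
      with e | e | e
    exacts [n1 e, n2 e, n3 e]
  rcases same_type hp ha hb e11.2 e21.2 e12.2 e22.2 with e | e
  exacts [n3 e, n6 e]

open Classical in
theorem host_deg (hp : 30 ≤ p) (x : Fin 7 × ZMod p × ZMod p) : 4 * p ≤ (host p).degree x + 1 := by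
  let f : Fin 7 × ZMod p → Fin 7 × ZMod p × ZMod p := fun t =>
    (t.1, t.2, (x.2.1 + t.2) ^ 2 / ((al x.1 + al t.1 : ℤ) : ZMod p) - x.2.2)
  have hf : Function.Injective f := fun t t' e =>
    Prod.ext (congrArg (fun z : Fin 7 × ZMod p × ZMod p => z.1) e)
      (congrArg (fun z : Fin 7 × ZMod p × ZMod p => z.2.1) e)
  have h1 : ((univ.filter fun j => ty x.1 j) ×ˢ (univ : Finset (ZMod p))).image f ⊆
      insert x ((host p).neighborFinset x) := by
    intro y hy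
    obtain ⟨t, ht, rfl⟩ := mem_image.1 hy
    have ht1 : ty x.1 t.1 := (mem_filter.1 (mem_product.1 ht).1).2
    by_cases e : f t = x
    · rw [e]; exact mem_insert_self _ _
    refine mem_insert_of_mem ((mem_neighborFinset _ _ _).2 ⟨Ne.symm e, ht1, ?_⟩)
    have := cast_ne hp (ty_ne _ _ ht1)
    simp only [f]
    field_simp
    ring
  have h2 := card_le_card h1
  rw [card_image_of_injective _ hf, card_product, ty_card, card_univ, ZMod.card] at h2
  exact h2.trans (card_insert_le _ _)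

open Classical in
theorem host_edges (hp : 30 ≤ p) :
    7 * p ^ 2 * (4 * p) ≤ 2 * (host p).edgeFinset.card + 7 * p ^ 2 := by
  have h := sum_le_sum fun x (_ : x ∈ (univ : Finset (Fin 7 × ZMod p × ZMod p))) => host_deg hp x
  rw [sum_add_distrib, sum_degrees_eq_twice_card_edges] at h
  simp only [sum_const, card_univ, Fintype.card_prod, ZMod.card, Fintype.card_fin, smul_eq_mul,
    mul_one] at h
  rw [sq]
  exact h

end Pool.Agent.Work.MP_054302_co.W
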