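import Pool.Agent.Work.MP_054302_co.Upper

/-! A graph with `p (p - 1) / 3` vertices and minimum degree `p - 2` without `K_{2,4}`. -/

namespace Pool.Agent.Work.MP_054302_co.W

open Finset SimpleGraph

variable {F : Type} [Field F]

/-- the nonzero cubes -/
abbrev Cub (F : Type) [Field F] : Type := (powMonoidHom 3 : Fˣ →* Fˣ).range

/-- the value of a cube in the field -/
def cv (b : Cub F) : F := ((b : Fˣ) : F)

theorem cv_ne (b : Cub F) : cv b ≠ 0 := Units.ne_zero _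

theorem cv_inj {b b' : Cub F} (h : cv b = cv b') : b = b' := Subtype.ext (Units.ext h)

theorem cv_solve {y : F} (hy : y ≠ 0) (b : Cub F) : ∃ e : Cub F, y ^ 3 = cv b * cv e := by
  refine ⟨b⁻¹ * ⟨Units.mk0 y hy ^ 3, ⟨Units.mk0 y hy, rfl⟩⟩, ?_⟩
  simp [cv]

/-- the cubic sum graph -/
def ng (F : Type) [Field F] : SimpleGraph (F × Cub F) where
  Adj x y := x ≠ y ∧ (x.1 + y.1) ^ 3 = cv x.2 * cv y.2
  symm := ⟨fun _ _ h => ⟨h.1.symm, by rw [add_comm, mul_comm]; exact h.2⟩⟩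
  loopless := ⟨fun _ h => h.1 rfl⟩

theorem cube_four {c r1 r2 r3 r4 : F} (h1 : r1 ^ 3 = c) (h2 : r2 ^ 3 = c) (h3 : r3 ^ 3 = c)
    (h4 : r4 ^ 3 = c) (n12 : r1 ≠ r2) (n13 : r1 ≠ r3) (n14 : r1 ≠ r4) (n23 : r2 ≠ r3)
    (n24 : r2 ≠ r4) : r3 = r4 := by
  have k : ∀ r, r ^ 3 = c → r1 ≠ r → r1 ^ 2 + r1 * r + r ^ 2 = 0 := fun r h n =>
    mul_left_cancel₀ (sub_ne_zero.2 n) (by linear_combination h1 - h)
  have k' : ∀ r, r ^ 3 = c → r1 ≠ r → r2 ≠ r → r1 + r2 + r = 0 := fun r h n m =>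
    mul_left_cancel₀ (sub_ne_zero.2 m) (by linear_combination k r2 h2 n12 - k r h n)
  linear_combination k' r3 h3 n13 n23 - k' r4 h4 n14 n24

theorem ng_free : ¬ Has (ng F) (full 2 4) := by
  rintro ⟨s, t, hs, ht, -, hadj⟩
  have h0 : ∀ j, ((s 0).1 + (t j).1) ^ 3 = cv (s 0).2 * cv (t j).2 := fun j => (hadj 0 j rfl).2
  have h1 : ∀ j, ((s 1).1 + (t j).1) ^ 3 = cv (s 1).2 * cv (t j).2 := fun j => (hadj 1 j rfl).2
  have hne : (s 0).1 ≠ (s 1).1 := fun e => by
    have e2 : cv (s 0).2 = cv (s 1).2 :=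
      mul_right_cancel₀ (cv_ne (t 0).2) (by rw [← h0, ← h1, e])
    exact absurd (hs (Prod.ext e (cv_inj e2))) (by decide)
  have hv : ∀ j, (s 1).1 + (t j).1 ≠ 0 := fun j e => by
    have := h1 j
    rw [e, zero_pow three_ne_zero] at this
    exact mul_ne_zero (cv_ne _) (cv_ne _) this.symm
  have hr : ∀ j, (((s 0).1 + (t j).1) / ((s 1).1 + (t j).1)) ^ 3 = cv (s 0).2 / cv (s 1).2 :=
    fun j => by rw [div_pow, h0, h1, mul_div_mul_right _ _ (cv_ne _)]
  have hi : ∀ i j, ((s 0).1 + (t i).1) / ((s 1).1 + (t i).1) =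
      ((s 0).1 + (t j).1) / ((s 1).1 + (t j).1) → i = j := fun i j e => by
    rw [div_eq_div_iff (hv i) (hv j)] at e
    have e1 : (t i).1 = (t j).1 :=
      mul_left_cancel₀ (sub_ne_zero.2 hne) (by linear_combination -e)
    have e2 : cv (t i).2 = cv (t j).2 :=
      mul_left_cancel₀ (cv_ne (s 0).2) (by rw [← h0, ← h0, e1])
    exact ht (Prod.ext e1 (cv_inj e2))
  have hn : ∀ i j, i ≠ j → _ := fun i j h e => h (hi i j e)
  exact hn 2 3 (by decide) (cube_four (hr 0) (hr 1) (hr 2) (hr 3) (hn 0 1 (by decide))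
    (hn 0 2 (by decide)) (hn 0 3 (by decide)) (hn 1 2 (by decide)) (hn 1 3 (by decide)))

theorem ng_deg [Fintype F] [Fintype (F × Cub F)] [DecidableRel (ng F).Adj] (v : F × Cub F) :
    Fintype.card F - 2 ≤ (ng F).degree v := by
  classical
  have h1 : #(univ \ {-v.1, v.1}) ≤ #((ng F).neighborFinset v) := by
    refine card_le_card_of_surjOn (fun w => w.1) fun x hx => ?_
    simp only [coe_sdiff, coe_univ, coe_insert, coe_singleton, Set.mem_sdiff, Set.mem_univ,
      Set.mem_insert_iff, Set.mem_singleton_iff, not_or, true_and] at hx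
    obtain ⟨e, he⟩ := cv_solve (y := v.1 + x) (fun h => hx.1 (by linear_combination h)) v.2
    exact ⟨(x, e), (mem_neighborFinset _ _ _).2 ⟨fun h => hx.2 (by rw [h]), he⟩, rfl⟩
  have h2 := le_card_sdiff {-v.1, v.1} (univ : Finset F)
  have h3 : #({-v.1, v.1} : Finset F) ≤ 2 := card_le_two
  rw [card_univ] at h2
  rw [← card_neighborFinset_eq_degree]
  omega

theorem low_gen [Fintype F] {n : ℕ} (h3 : Fintype.card F % 3 = 1)
    (hn : Fintype.card F ^ 2 ≤ 3 * n) :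
    Fintype.card F * (Fintype.card F - 1) * (Fintype.card F - 2) ≤ 6 * ex n (full 2 4) := by
  classical
  have hc : 3 * Nat.card (Cub F) = Fintype.card F - 1 := by
    have hd : 3 ∣ Fintype.card F - 1 := by omega
    rw [IsCyclic.card_powMonoidHom_range, Nat.card_eq_fintype_card, Fintype.card_units,
      Nat.gcd_eq_right hd, Nat.mul_div_cancel' hd]
  have : Fintype (F × Cub F) := Fintype.ofFinite _
  have hV : 3 * Fintype.card (F × Cub F) = Fintype.card F * (Fintype.card F - 1) := by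
    rw [← Nat.card_eq_fintype_card, Nat.card_prod, ← hc, Nat.card_eq_fintype_card]; ring
  have h4 : Fintype.card F * (Fintype.card F - 1) ≤ Fintype.card F ^ 2 := by
    rw [sq]; exact Nat.mul_le_mul_left _ (Nat.sub_le _ _)
  have h1 := host_deg (n := n) (by decide) (by decide) (ng F) ng_free (by omega) ng_deg
  rw [← hV, mul_assoc]
  omega

theorem low_k24 {p n : ℕ} (hp : p.Prime) (h3 : p % 3 = 1) (hn : p ^ 2 ≤ 3 * n) :
    p * (p - 1) * (p - 2) ≤ 6 * ex n (full 2 4) := by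
  have := Fact.mk hp
  have h := low_gen (F := ZMod p) (n := n) (by rwa [ZMod.card]) (by rwa [ZMod.card])
  rwa [ZMod.card] at h

end Pool.Agent.Work.MP_054302_co.W
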