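import Pool.Agent.Work.MP_054302_co.Steps
import Pool.Agent.Work.MP_054302_co.W.Host
import Pool.Agent.Work.MP_054302_co.W.Norm

/-! The asymptotic value of the minimum for six vertices and eight edges. -/

namespace Pool.Agent.Work.MP_054302_co.W

open Finset SimpleGraph Filter Topology

theorem hasK_iff {V : Type*} {G : SimpleGraph V} : HasK G ↔ Has G (fulle 2 2) := by
  constructor
  · rintro ⟨a0, a1, a2, b0, b1, b2, n1, n2, n3, n4, n5, n6, n7, e1, e2, e3, e4, e5, e6, e7, e8⟩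
    refine ⟨![a0, a1, a2], ![b0, b1, b2], inj3 n1 n2 n3, inj3 n4 n5 n6, fun i j => ?_,
      fun i j h => ?_⟩
    · fin_cases i <;> fin_cases j
      exacts [n7, e1.ne, e2.ne, e3.ne, e4.ne, e5.ne, e6.ne, e7.ne, e8.ne]
    · fin_cases i <;> fin_cases j
      exacts [absurd h (by decide), e1, e2, e3, e4, e5, e6, e7, e8]
  · rintro ⟨s, t, hs, ht, hst, h⟩
    exact ⟨s 0, s 1, s 2, t 0, t 1, t 2, hs.ne (by decide), hs.ne (by decide), hs.ne (by decide),
      ht.ne (by decide), ht.ne (by decide), ht.ne (by decide), hst 0 0, h 0 1 (by decide),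
      h 0 2 (by decide), h 1 0 (by decide), h 1 1 (by decide), h 1 2 (by decide),
      h 2 0 (by decide), h 2 1 (by decide), h 2 2 (by decide)⟩

theorem up_ex (n : ℕ) : 14 * ex n (fulle 2 2) ^ 2 ≤ 8 * n ^ 3 + 25 * n * ex n (fulle 2 2) := by
  obtain ⟨H, inst, hH, he⟩ := exists_extremal (fulle 2 2) ⟨0, 1, by decide⟩ n
  have := upper_nat (G := H) fun h => hH (hasK_iff.1 h)
  rwa [Fintype.card_fin, he] at this

theorem low_ex {p n : ℕ} (hp : p.Prime) (h30 : 30 ≤ p) (h : p % 24 = 19) (hn : 7 * p ^ 2 ≤ n) :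
    28 * p ^ 3 ≤ 2 * ex n (fulle 2 2) + n := by
  classical
  have := Fact.mk hp
  have h1 := host_le (n := n) (by decide) (by decide) (host p)
    (fun k => host_free h30 h (hasK_iff.2 k)) (by
      simpa only [Fintype.card_prod, Fintype.card_fin, ZMod.card, ← sq] using hn)
  have h2 := host_edges (p := p) h30
  have h3 : 28 * p ^ 3 = 7 * p ^ 2 * (4 * p) := by ring
  omega

theorem prime_near {t : ℝ} (h0 : 0 < t) (h1 : t < 1) :
    ∀ᶠ x : ℝ in atTop, ∃ p : ℕ, p.Prime ∧ p % 24 = 19 ∧ (p : ℝ) ≤ x ∧ t * x < p := by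
  have a0 := Pool.Agent.Lib.ANT.tendsto_theta_AP_div (q := 24) (a := 19) (by norm_num) (by norm_num)
  have hpos : (0 : ℝ) < ((Nat.totient 24 : ℕ) : ℝ)⁻¹ := by
    have : 0 < Nat.totient 24 := Nat.totient_pos.2 (by norm_num)
    positivity
  have a2 := (a0.comp (tendsto_id.const_mul_atTop h0)).const_mul t
  have a3 := (a0.sub a2).eventually (lt_mem_nhds (a := 0) (by nlinarith))
  filter_upwards [a3, eventually_gt_atTop 0] with x hx hx0
  by_contra hc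
  push Not at hc
  have e : (Icc 1 ⌊x⌋₊).filter (fun p => p.Prime ∧ p ≡ 19 [MOD 24]) =
      (Icc 1 ⌊t * x⌋₊).filter (fun p => p.Prime ∧ p ≡ 19 [MOD 24]) := by
    ext p
    simp only [mem_filter, mem_Icc, Nat.le_floor_iff hx0.le, Nat.le_floor_iff (mul_pos h0 hx0).le]
    exact ⟨fun ⟨a, b, c⟩ => ⟨⟨a.1, hc p b c a.2⟩, b, c⟩,
      fun ⟨a, b⟩ => ⟨⟨a.1, a.2.trans (by nlinarith)⟩, b⟩⟩
  simp only [Function.comp, id] at hx
  rw [← e] at hx
  have : ∀ u : ℝ, u / x - t * (u / (t * x)) = 0 := fun u => by field_simp; ring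
  rw [this] at hx
  exact lt_irrefl _ hx

theorem sqrt_top : Tendsto (fun n : ℕ => √(n : ℝ)) atTop atTop :=
  Real.tendsto_sqrt_atTop.comp tendsto_natCast_atTop_atTop

theorem c_pos : (0 : ℝ) < 2 / √7 := by positivity

theorem c_sq : (2 / √7 : ℝ) ^ 2 = 4 / 7 := by
  rw [div_pow, Real.sq_sqrt (by norm_num)]; norm_num

theorem up_real (n : ℕ) : (ex n (fulle 2 2) : ℝ) ≤ 2 / √7 * √n ^ 3 + 2 * √n ^ 2 := by
  have h : (14 : ℝ) * (ex n (fulle 2 2) : ℝ) ^ 2 ≤ 8 * n ^ 3 + 25 * n * (ex n (fulle 2 2) : ℝ) := by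
    exact_mod_cast up_ex n
  have hs := Real.sq_sqrt (Nat.cast_nonneg n : (0 : ℝ) ≤ n)
  have h0 := Real.sqrt_nonneg (n : ℝ)
  have c1 := c_pos
  have c2 := c_sq
  generalize (ex n (fulle 2 2) : ℝ) = e at h ⊢
  generalize √(n : ℝ) = s at hs h0 ⊢
  generalize (2 / √7 : ℝ) = c at c1 c2 ⊢
  rw [← hs] at h
  by_contra hc
  have a1 : 0 ≤ c * s ^ 3 := by positivity
  have a2 : c * s ^ 3 < e := by nlinarith [sq_nonneg s]
  have a3 : 14 * (c * s ^ 3) < 14 * e - 25 * s ^ 2 := by nlinarith [sq_nonneg s]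
  have a4 := mul_lt_mul'' a2 a3 a1 (by positivity)
  have a5 : c * s ^ 3 * (14 * (c * s ^ 3)) = 14 * c ^ 2 * (s ^ 2) ^ 3 := by ring
  rw [a5, c2] at a4
  nlinarith

theorem low_real {t : ℝ} (h0 : 0 < t) (h1 : t < 1) : ∀ᶠ n : ℕ in atTop,
    2 / √7 * t ^ 3 * √n ^ 3 ≤ (ex n (fulle 2 2) : ℝ) + √n ^ 2 := by
  have hw : (0 : ℝ) < √7 := by positivity
  have hw2 : (√7 : ℝ) ^ 2 = 7 := Real.sq_sqrt (by norm_num)
  have hx := sqrt_top.atTop_div_const hw
  filter_upwards [hx.eventually (prime_near h0 h1),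
    (hx.const_mul_atTop h0).eventually (eventually_ge_atTop 30)] with n hn h30
  obtain ⟨p, p1, p2, p3, p4⟩ := hn
  have hs := Real.sq_sqrt (Nat.cast_nonneg n : (0 : ℝ) ≤ n)
  have hs0 := Real.sqrt_nonneg (n : ℝ)
  obtain ⟨y, hy⟩ : ∃ y, √(n : ℝ) = √7 * y := ⟨√n / √7, by field_simp⟩
  rw [hy, mul_div_cancel_left₀ _ hw.ne'] at p3 p4 h30
  have hp0 : (0 : ℝ) ≤ p := Nat.cast_nonneg p
  have hn : (n : ℝ) = 7 * y ^ 2 := by rw [← hs, hy, mul_pow, hw2]
  have a1 : 7 * p ^ 2 ≤ n := by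
    have : (7 : ℝ) * p ^ 2 ≤ n := by rw [hn]; gcongr
    exact_mod_cast this
  have a2 : (28 : ℝ) * p ^ 3 ≤ 2 * (ex n (fulle 2 2) : ℝ) + n := by
    exact_mod_cast low_ex p1 (by exact_mod_cast h30.trans p4.le) p2 a1
  have a3 : (t * y) ^ 3 ≤ (p : ℝ) ^ 3 := pow_le_pow_left₀ (by linarith) p4.le 3
  have a4 : 2 / √7 * t ^ 3 * √(n : ℝ) ^ 3 = 14 * (t * y) ^ 3 := by
    rw [hy]
    field_simp
    rw [hw2]
    ring
  rw [a4, hs]
  linarith [(Nat.cast_nonneg n : (0 : ℝ) ≤ n)]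

theorem low_k24_real : ∀ᶠ n : ℕ in atTop, 4 / 5 * √n ^ 3 ≤ (ex n (full 2 4) : ℝ) := by
  have hx := sqrt_top.const_mul_atTop (show (0 : ℝ) < 173 / 100 by norm_num)
  filter_upwards [hx.eventually (prime_near (t := 99 / 100) (by norm_num) (by norm_num)),
    sqrt_top.eventually (eventually_ge_atTop 200)] with n hn h200
  obtain ⟨p, p1, p2, p3, p4⟩ := hn
  have hs := Real.sq_sqrt (Nat.cast_nonneg n : (0 : ℝ) ≤ n)
  have hp0 : (0 : ℝ) ≤ p := Nat.cast_nonneg p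
  have a1 : p ^ 2 ≤ 3 * n := by
    have : (p : ℝ) ^ 2 ≤ 3 * n := by nlinarith
    exact_mod_cast this
  have a2 := low_k24 p1 (by omega) a1
  obtain ⟨q, rfl⟩ : ∃ q, p = q + 2 := ⟨p - 2, by have := p1.two_le; omega⟩
  have a3 : q ^ 3 ≤ 6 * ex n (full 2 4) := by
    refine le_trans ?_ a2
    rw [show q + 2 - 1 = q + 1 from rfl, Nat.add_sub_cancel]
    nlinarith [Nat.zero_le (q ^ 2), Nat.zero_le q]
  have a4 : (q : ℝ) ^ 3 ≤ 6 * (ex n (full 2 4) : ℝ) := by exact_mod_cast a3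
  push_cast at p4
  have a5 : (17 / 10 * √(n : ℝ)) ^ 3 ≤ (q : ℝ) ^ 3 :=
    pow_le_pow_left₀ (by linarith) (by linarith) 3
  have a6 : 0 ≤ √(n : ℝ) ^ 3 := by positivity
  nlinarith

theorem min_eq : ∀ᶠ n : ℕ in atTop,
    Nd4bc9c34.minExtremalNumber n 6 8 = (ex n (fulle 2 2) : ℕ∞) := by
  filter_upwards [low_k24_real, sqrt_top.eventually (eventually_ge_atTop 50)] with n h1 h50
  have hs := Real.sq_sqrt (Nat.cast_nonneg n : (0 : ℝ) ≤ n)
  have h2 : (ex n (fulle 2 2) : ℝ) ≤ 4 / 5 * √n ^ 3 := by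
    have c1 := c_pos
    have c2 := c_sq
    have c3 : (2 / √7 : ℝ) ≤ 19 / 25 := by nlinarith
    have a1 : 0 ≤ √(n : ℝ) ^ 3 := by positivity
    have a2 := mul_le_mul_of_nonneg_right c3 a1
    have a3 := mul_le_mul_of_nonneg_right h50 (sq_nonneg √(n : ℝ))
    nlinarith [up_real n]
  refine le_antisymm ?_ (le_iInf₂ fun G hG => ?_)
  · refine iInf₂_le (f := fun (G : SimpleGraph (Fin (3 + 3))) (_ : G.edgeSet.ncard = 8) =>
      (extremalNumber n G : ℕ∞)) (bipG (fulle 2 2)) ?_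
    rw [← coe_edgeFinset, Set.ncard_coe_finset, card_bipG, cnt_fulle]
  · rw [Nat.cast_le]
    by_cases hc : G.Colorable 2
    · obtain ⟨c, d, hcd, h4, h5, M, hM, h6⟩ := shape hG hc
      obtain rfl : d = 6 - c := by omega
      have h7 : c ≤ 3 := by omega
      interval_cases c
      · omega
      · omega
      · exact le_trans (by exact_mod_cast h2.trans h1) ((hM.sub (sub_full M h6)).ex_le n)
      · exact (hM.sub (clD M h6)).ex_le n
    · have a1 : (n : ℝ) ^ 2 ≤ 4 * (extremalNumber n G : ℝ) + 4 := by exact_mod_cast nonbip hc n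
      have a2 : (ex n (fulle 2 2) : ℝ) ≤ extremalNumber n G := by
        rw [← hs] at a1
        have a3 : (50 : ℝ) ^ 3 ≤ √(n : ℝ) ^ 3 := pow_le_pow_left₀ (by norm_num) h50 3
        have a4 := mul_le_mul_of_nonneg_right h50 (show 0 ≤ √(n : ℝ) ^ 3 by positivity)
        nlinarith
      exact_mod_cast a2

theorem tendsto_ex : Tendsto (fun n : ℕ => (ex n (fulle 2 2) : ℝ) / √n ^ 3) atTop (𝓝 (2 / √7)) := by
  refine tendsto_order.2 ⟨fun a ha => ?_, fun a ha => ?_⟩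
  · have hc : ContinuousAt (fun t : ℝ => 2 / √7 * t ^ 3) 1 := by fun_prop
    have h1 : ∀ᶠ t : ℝ in 𝓝[<] 1, a < 2 / √7 * t ^ 3 ∧ 0 < t :=
      ((hc.eventually (lt_mem_nhds (by simpa using ha))).and (lt_mem_nhds one_pos)).filter_mono
        nhdsWithin_le_nhds
    obtain ⟨t, ⟨t1, t2⟩, t3⟩ := (h1.and self_mem_nhdsWithin).exists
    have hη : 0 < 2 / √7 * t ^ 3 - a := sub_pos.2 t1
    filter_upwards [low_real t2 t3, (sqrt_top.const_mul_atTop hη).eventually (eventually_gt_atTop 1),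
      sqrt_top.eventually (eventually_gt_atTop 0)] with n k1 k2 k3
    rw [lt_div_iff₀ (by positivity)]
    nlinarith [mul_lt_mul_of_pos_right k2 (pow_pos k3 2)]
  · have hη : 0 < a - 2 / √7 := sub_pos.2 ha
    filter_upwards [(sqrt_top.const_mul_atTop hη).eventually (eventually_gt_atTop 2),
      sqrt_top.eventually (eventually_gt_atTop 0)] with n k2 k3
    rw [div_lt_iff₀ (by positivity)]
    nlinarith [mul_lt_mul_of_pos_right k2 (pow_pos k3 2), up_real n]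

theorem six_eight : Tendsto (fun n : ℕ =>
    ((Nd4bc9c34.minExtremalNumber n 6 8).toNat : ℝ) / (n : ℝ) ^ (3 / 2 : ℝ)) atTop
      (𝓝 (2 / √7)) := by
  refine tendsto_ex.congr' ?_
  filter_upwards [min_eq] with n hn
  rw [hn, ENat.toNat_natCast, Real.sqrt_eq_rpow, ← Real.rpow_natCast,
    ← Real.rpow_mul (Nat.cast_nonneg n)]
  norm_num

end Pool.Agent.Work.MP_054302_co.W
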