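import Mathlib

/-! Upper bound for graphs without `K_{3,3}` minus an edge. -/

namespace Pool.Agent.Work.MP_054302_co.W

open Finset SimpleGraph

set_option linter.unusedSectionVars false

variable {V : Type*}

/-- a copy of `K_{3,3}` minus an edge, written out -/
def HasK (G : SimpleGraph V) : Prop :=
  ∃ a0 a1 a2 b0 b1 b2 : V, a0 ≠ a1 ∧ a0 ≠ a2 ∧ a1 ≠ a2 ∧ b0 ≠ b1 ∧ b0 ≠ b2 ∧ b1 ≠ b2 ∧ a0 ≠ b0 ∧
    G.Adj a0 b1 ∧ G.Adj a0 b2 ∧ G.Adj a1 b0 ∧ G.Adj a1 b1 ∧ G.Adj a1 b2 ∧ G.Adj a2 b0 ∧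
    G.Adj a2 b1 ∧ G.Adj a2 b2

/-- a labelled four-cycle with diagonals `p` and `q` -/
def Quad (G : SimpleGraph V) (p q : V × V) : Prop :=
  p.1 ≠ p.2 ∧ q.1 ≠ q.2 ∧ G.Adj p.1 q.1 ∧ G.Adj p.1 q.2 ∧ G.Adj p.2 q.1 ∧ G.Adj p.2 q.2

theorem Quad.symm {G : SimpleGraph V} {p q : V × V} (h : Quad G p q) : Quad G q p :=
  ⟨h.2.1, h.1, h.2.2.1.symm, h.2.2.2.2.1.symm, h.2.2.2.1.symm, h.2.2.2.2.2.symm⟩

variable [Fintype V] [DecidableEq V] (G : SimpleGraph V) [DecidableRel G.Adj]

/-- common neighbours -/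
def cn (p : V × V) : Finset V := univ.filter fun z => G.Adj p.1 z ∧ G.Adj p.2 z

instance (p q : V × V) : Decidable (Quad G p q) := by unfold Quad; infer_instance

variable {G}

theorem mem_cn {p : V × V} {z : V} : z ∈ cn G p ↔ G.Adj p.1 z ∧ G.Adj p.2 z := by simp [cn]

theorem exists_third {s : Finset V} (h : 3 ≤ s.card) (u v : V) : ∃ z ∈ s, z ≠ u ∧ z ≠ v := by
  by_contra c
  push Not at c
  have : s ⊆ {u, v} := fun z hz => by
    by_cases e : z = u
    · simp [e]
    · simp [c z hz e]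
  have h1 := card_le_card this
  have h2 := card_le_two (a := u) (b := v)
  omega

theorem third_eq (hK : ¬ HasK G) {p q : V × V} (h : Quad G p q) {z z' : V} (hz : z ∈ cn G p)
    (h1 : z ≠ q.1) (h2 : z ≠ q.2) (hz' : z' ∈ cn G q) (h3 : z' ≠ p.1) (h4 : z' ≠ p.2) : z = z' := by
  by_contra e
  rw [mem_cn] at hz hz'
  exact hK ⟨z', p.1, p.2, z, q.1, q.2, h3, h4, h.1, h1, h2, h.2.1, Ne.symm e, hz'.1.symm,
    hz'.2.symm, hz.1, h.2.2.1, h.2.2.2.1, hz.2, h.2.2.2.2.1, h.2.2.2.2.2⟩

theorem le_three (hK : ¬ HasK G) {p q : V × V} (h : Quad G p q) (hp : 3 ≤ (cn G p).card) :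
    (cn G q).card ≤ 3 := by
  obtain ⟨z, hz, h1, h2⟩ := exists_third hp q.1 q.2
  have : cn G q ⊆ {z, p.1, p.2} := fun z' hz' => by
    by_cases e1 : z' = p.1
    · simp [e1]
    by_cases e2 : z' = p.2
    · simp [e2]
    simp [third_eq hK h hz h1 h2 hz' e1 e2]
  exact (card_le_card this).trans card_le_three

theorem quad_filter {p : V × V} (hp : p.1 ≠ p.2) :
    univ.filter (fun q => Quad G p q) = (cn G p).offDiag := by
  ext q
  rw [mem_filter, mem_offDiag, mem_cn, mem_cn, Quad]
  simp only [mem_univ, true_and]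
  tauto

theorem heavy_le (hK : ¬ HasK G) :
    (univ.filter fun t : (V × V) × V × V =>
      Quad G t.1 t.2 ∧ 3 ≤ (cn G t.1).card ∧ 3 ≤ (cn G t.2).card).card ≤
      18 * (univ.filter fun e : V × V => G.Adj e.1 e.2).card := by
  classical
  let S : V × V → Finset ((V × V) × V × V) := fun e =>
    if (cn G e).card ≤ 3 then (cn G e).offDiag.biUnion fun q =>
      if (cn G q).card ≤ 3 then (cn G q).image fun y => ((e.2, y), q) else ∅ else ∅
  have hS : ∀ e, (S e).card ≤ 18 := by
    intro e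
    simp only [S]
    split_ifs with h
    · refine (card_biUnion_le_card_mul _ _ 3 fun q _ => ?_).trans ?_
      · split_ifs with h'
        · exact card_image_le.trans h'
        · simp
      · rw [offDiag_card]
        generalize (cn G e).card = m at h
        interval_cases m <;> norm_num
    · simp
  refine le_trans (card_le_card (t := (univ.filter fun e : V × V => G.Adj e.1 e.2).biUnion S) ?_)
    ((card_biUnion_le_card_mul _ _ 18 fun e _ => hS e).trans (le_of_eq (mul_comm _ _)))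
  rintro ⟨p, q⟩ ht
  simp only [mem_filter, mem_univ, true_and] at ht
  obtain ⟨h, hp, hq⟩ := ht
  obtain ⟨z, hz, h1, h2⟩ := exists_third hp q.1 q.2
  obtain ⟨z', hz', h3, h4⟩ := exists_third hq p.1 p.2
  obtain rfl := third_eq hK h hz h1 h2 hz' h3 h4
  have hz1 := mem_cn.1 hz
  have hz2 := mem_cn.1 hz'
  have hQ : Quad G q (z, p.1) :=
    ⟨h.2.1, h3, hz2.1, h.2.2.1.symm, hz2.2, h.2.2.2.1.symm⟩
  refine mem_biUnion.2 ⟨(z, p.1), by simpa using hz1.1.symm, ?_⟩
  simp only [S]
  rw [if_pos (le_three hK hQ hq)]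
  refine mem_biUnion.2 ⟨q, ?_, ?_⟩
  · exact mem_offDiag.2 ⟨mem_cn.2 ⟨hz2.1.symm, h.2.2.1⟩, mem_cn.2 ⟨hz2.2.symm, h.2.2.2.1⟩, h.2.1⟩
  · rw [if_pos (le_three hK h hp)]
    exact mem_image.2 ⟨p.2, mem_cn.2 ⟨h.2.2.2.2.1.symm, h.2.2.2.2.2.symm⟩, rfl⟩

theorem card_darts : (univ.filter fun e : V × V => G.Adj e.1 e.2).card = ∑ v, G.degree v := by
  rw [card_filter, Fintype.sum_prod_type]
  refine sum_congr rfl fun v _ => ?_
  rw [← card_neighborFinset_eq_degree, neighborFinset_eq_filter, card_filter]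

theorem sum_cn : ∑ p ∈ (univ : Finset V).offDiag, (cn G p).card + ∑ v, G.degree v =
    ∑ v, G.degree v ^ 2 := by
  have h1 : ∑ p ∈ (univ : Finset V).offDiag, (cn G p).card =
      ∑ v, (G.neighborFinset v).offDiag.card := by
    simp only [cn, card_filter]
    rw [sum_comm]
    refine sum_congr rfl fun v _ => ?_
    rw [← card_filter]
    congr 1
    ext p
    simp only [mem_filter, mem_offDiag, mem_univ, true_and, mem_neighborFinset, G.adj_comm v]
    tauto
  rw [h1, ← sum_add_distrib]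
  refine sum_congr rfl fun v _ => ?_
  rw [offDiag_card, card_neighborFinset_eq_degree, sq]
  exact Nat.sub_add_cancel (Nat.le_mul_self _)

theorem sum_cn_le (hK : ¬ HasK G) : 7 * ∑ p ∈ (univ : Finset V).offDiag, (cn G p).card ≤
    16 * Fintype.card V ^ 2 + 18 * ∑ v, G.degree v := by
  have hq : ∀ (P : V × V → Prop) [DecidablePred P],
      (univ.filter fun t : (V × V) × V × V => Quad G t.1 t.2 ∧ P t.1).card =
        ∑ p ∈ (univ : Finset V).offDiag,
          if P p then (cn G p).card * (cn G p).card - (cn G p).card else 0 := by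
    intro P _
    rw [card_filter, Fintype.sum_prod_type]
    symm
    refine sum_subset_zero_on_sdiff (subset_univ _) (fun p hp => ?_) fun p hp => ?_
    · simp only [mem_sdiff, mem_univ, true_and, mem_offDiag, not_not] at hp
      simp [Quad, hp]
    · have hp' : p.1 ≠ p.2 := (mem_offDiag.1 hp).2.2
      split_ifs with h
      · rw [← offDiag_card, ← quad_filter hp', card_filter]
        simp [h]
      · simp [h]
  have h1 := hq fun p => 3 ≤ (cn G p).card
  have h2 := hq fun p => (cn G p).card = 2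
  have h3 : (univ.filter fun t : (V × V) × V × V => Quad G t.1 t.2 ∧ 3 ≤ (cn G t.1).card).card ≤
      (univ.filter fun t : (V × V) × V × V => Quad G t.1 t.2 ∧ (cn G t.1).card = 2).card +
      (univ.filter fun t : (V × V) × V × V =>
        Quad G t.1 t.2 ∧ 3 ≤ (cn G t.1).card ∧ 3 ≤ (cn G t.2).card).card := by
    rw [← card_map (Equiv.prodComm _ _).toEmbedding
      (s := univ.filter fun t : (V × V) × V × V => Quad G t.1 t.2 ∧ (cn G t.1).card = 2)]
    refine le_trans (card_le_card ?_) (card_union_le _ _)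
    rintro ⟨p, q⟩ ht
    simp only [mem_filter, mem_univ, true_and] at ht
    by_cases h : 3 ≤ (cn G q).card
    · exact mem_union_right _ (by simpa using ⟨ht.1, ht.2, h⟩)
    · refine mem_union_left _ (mem_map.2 ⟨(q, p), ?_, rfl⟩)
      have : ({p.1, p.2} : Finset V) ⊆ cn G q := by
        intro z hz
        rw [mem_insert, mem_singleton] at hz
        rcases hz with rfl | rfl
        · exact mem_cn.2 ⟨ht.1.2.2.1.symm, ht.1.2.2.2.1.symm⟩
        · exact mem_cn.2 ⟨ht.1.2.2.2.2.1.symm, ht.1.2.2.2.2.2.symm⟩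
      have h5 := card_le_card this
      rw [card_pair ht.1.1] at h5
      simp only [mem_filter, mem_univ, true_and]
      exact ⟨ht.1.symm, by omega⟩
  have h4 := heavy_le hK
  rw [card_darts] at h4
  have h5 : ∑ p ∈ (univ : Finset V).offDiag, (7 * (cn G p).card +
      if (cn G p).card = 2 then (cn G p).card * (cn G p).card - (cn G p).card else 0) ≤
      ∑ p ∈ (univ : Finset V).offDiag, (16 +
      if 3 ≤ (cn G p).card then (cn G p).card * (cn G p).card - (cn G p).card else 0) := by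
    refine sum_le_sum fun p _ => ?_
    generalize (cn G p).card = m
    rcases Nat.lt_or_ge m 3 with h | h
    · interval_cases m <;> simp
    · rw [if_pos h, if_neg (by omega)]
      have : m ≤ m * m := Nat.le_mul_self _
      zify [this]
      nlinarith [sq_nonneg ((m : ℤ) - 4)]
  rw [sum_add_distrib, sum_add_distrib, ← mul_sum, ← h1, ← h2, sum_const, smul_eq_mul,
    offDiag_card, card_univ] at h5
  have h6 : Fintype.card V * Fintype.card V - Fintype.card V ≤ Fintype.card V ^ 2 := by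
    rw [sq]; omega
  omega

theorem upper_nat (hK : ¬ HasK G) : 14 * G.edgeFinset.card ^ 2 ≤
    8 * Fintype.card V ^ 3 + 25 * Fintype.card V * G.edgeFinset.card := by
  have h1 := sum_cn_le hK
  have h2 := sum_cn (G := G)
  have h3 := sq_sum_le_card_mul_sum_sq (s := (univ : Finset V)) (f := fun v => G.degree v)
  rw [sum_degrees_eq_twice_card_edges] at h1 h2 h3
  rw [card_univ, ← h2] at h3
  have h4 := Nat.mul_le_mul_left (Fintype.card V) h1
  nlinarith

end Pool.Agent.Work.MP_054302_co.W
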